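import Pool.Agent.W_be22fd_h83.Step

/-!
# MP_be22fd_co: the analysis half from the local tests of the items

`ItemLocal`: every valid item carries a local test of value `g / 2000`.  `analysis_of_item`: the
target of the analysis half follows.
-/

set_option autoImplicit false

open Polynomial Real MeasureTheory

namespace Pool.Agent.Be22.Ker

open Pool.Agent.W_be22fd_h78 (Dom gain ForceCalc AnalysisTarget)
open Pool.Agent.W_be22fd_h76sel (Item)

/-- Every valid item carries a local test of value `g / 2000`. -/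
def ItemLocal : Prop :=
  ∀ (S : Set ℝ[X]) (L : List ℂ[X]) (t : ℕ → ℝ) (K : ℕ) (E g : ℝ), S.Finite → S.Nontrivial →
    Diffs S L → 0 ≤ g → (E = 1 ∨ (E = 2 ∧ 1000 ≤ g)) → (∀ i, i < K → t i < t (i + 1)) →
    (∀ k, 1 ≤ k → k < K → ∀ x, t k < x → x < t (k + 1) →
      ∃ S' ⊆ S, ∃ a b, F S' g a b ∧ t (k - 1) ≤ a ∧ a ≤ b ∧ b ≤ x ∧ Dom E S S' x) →
    ∀ it : Item, it.Valid t K → LocalTest L it.supp (g / 2000)

theorem forceCalc_F (h : ItemLocal) (d : ℕ) :
    ForceCalc 1 (1 / 432000) 1 1 1000 d F := by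
  refine ⟨?_, ?_, ?_⟩
  · intro P Q x hne _ _ hx
    exact F_pair hne hx
  · intro S g a b _ hd hF
    rw [one_mul]
    exact F_total hd hF
  · intro S N t M E g hS hnt _ hM hg hE ht hr hch
    exact step_F hS hnt hM hg ht hr fun L hL it hv =>
      h S L t N E g hS hnt hL hg hE ht hch it hv

/-- The analysis half. -/
theorem analysis_of_item (h : ItemLocal) : AnalysisTarget :=
  ⟨1, 1 / 432000, 1, 1, 1000, one_pos, by norm_num, zero_le_one, one_pos, by norm_num,
    fun d _ => ⟨F, forceCalc_F h d⟩⟩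

end Pool.Agent.Be22.Ker
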