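import Pool.Agent.W_be22fd_h77.Items
import Pool.Agent.W_be22fd_h76sel.Sel

/-!
# MP_be22fd_co: the step of the calculus from the selection and the local tests

`ItemLocal S L t K g lam`: every valid item carries a local test of value `lam * g`.
`step_F`: from this and the selection theorem the step of `ForceCalc`.
-/

set_option autoImplicit false

open Polynomial Real MeasureTheory

namespace Pool.Agent.Be22.Ker

open Pool.Agent.W_be22fd_h78 (Dom gain)
open Pool.Agent.W_be22fd_h76sel (Item Pts QQ D gap selection)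

theorem dsc_eq (y₁ y₂ : ℝ) (z : ℂ) :
    z ∈ dsc y₁ y₂ ↔ ‖z - (((y₁ + y₂) / 2 : ℝ) : ℂ)‖ ≤ (y₂ - y₁) / 2 := by
  rw [dsc, Metric.mem_closedBall, dist_eq_norm]

theorem D_sub_Nb (a b : ℝ) : D (a - (b - a) / 16) (b + (b - a) / 16) ⊆ Nb a b := by
  rw [D, Nb, dsc]
  exact Metric.ball_subset_closedBall

theorem choose_hole {a b y₁ y₂ : ℝ} (hY : Excl a b y₁ y₂) :
    ∃ c r : ℝ, (r ≤ 0 ∨ c + 3 * r ≤ a ∨ b + 3 * r ≤ c) ∧
      ∀ R : Set ℂ, (0 < r → ∀ z ∈ R, r < ‖z - (c : ℂ)‖) → ∀ z ∈ R, z ∉ dsc y₁ y₂ := by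
  by_cases h : y₂ < y₁
  · refine ⟨0, 0, Or.inl le_rfl, fun R _ z _ hz => ?_⟩
    rw [dsc, Metric.mem_closedBall] at hz
    have := dist_nonneg (x := z) (y := (((y₁ + y₂) / 2 : ℝ) : ℂ))
    linarith
  · push Not at h
    have key : ∀ r : ℝ, 0 < r → (y₂ - y₁) / 2 ≤ r → ∀ R : Set ℂ,
        (0 < r → ∀ z ∈ R, r < ‖z - (((y₁ + y₂) / 2 : ℝ) : ℂ)‖) → ∀ z ∈ R, z ∉ dsc y₁ y₂ := by
      intro r hr hle R hR z hz hmem
      rw [dsc_eq y₁ y₂] at hmem
      have := hR hr z hz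
      linarith
    rcases hY with h1 | ⟨h1, h2⟩ | ⟨h1, h2⟩
    · exact absurd h1 (not_lt.2 h)
    · refine ⟨(y₁ + y₂) / 2, (((y₁ + y₂) / 2) - b) / 3, Or.inr (Or.inr (by linarith)), ?_⟩
      exact key _ (by linarith) (by linarith)
    · refine ⟨(y₁ + y₂) / 2, (a - ((y₁ + y₂) / 2)) / 3, Or.inr (Or.inl (by linarith)), ?_⟩
      exact key _ (by linarith) (by linarith)

theorem QQ_cast (a m0 : ℕ) : (QQ a m0 : ℝ) = 4 * a + 8 * m0 + 204 := by
  unfold QQ Pool.Agent.W_be22fd_h76sel.nn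
  push_cast
  ring

theorem QQ_le {K a m0 : ℕ} {M : ℝ} (ha : a = Nat.clog 2 K) (hK : 1 ≤ K) (hM : 0 ≤ M)
    (hm : m0 = ⌈log (2 + M) / log (3 / 2)⌉₊) :
    (QQ a m0 : ℝ) ≤ 216 * (1 + log K + log (2 + M)) := by
  have hK' : (1 : ℝ) ≤ K := by exact_mod_cast hK
  have hlK : 0 ≤ log (K : ℝ) := log_nonneg hK'
  have hlM : 0 ≤ log (2 + M) := log_nonneg (by linarith)
  have h2 := Real.log_two_gt_d9
  have h15 : (1 : ℝ) / 3 ≤ log (3 / 2) := by
    have := Real.one_sub_inv_le_log_of_pos (show (0 : ℝ) < 3 / 2 by norm_num)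
    norm_num at this ⊢
    linarith
  have h1 : (a : ℝ) ≤ 2 * log K + 1 := by
    have e : a = ⌈logb (2 : ℕ) (K : ℝ)⌉₊ := by
      rw [ha, Real.natCeil_logb_natCast]
    have h3 : (0 : ℝ) ≤ logb (2 : ℕ) (K : ℝ) := by
      rw [logb]
      push_cast
      positivity
    have h4 := Nat.ceil_lt_add_one h3
    rw [e]
    have h5 : logb (2 : ℕ) (K : ℝ) ≤ 2 * log K := by
      rw [logb]
      push_cast
      rw [div_le_iff₀ (by linarith)]
      nlinarith
    linarith
  have h3 : (m0 : ℝ) ≤ 3 * log (2 + M) + 1 := by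
    have h4 : 0 ≤ log (2 + M) / log (3 / 2) := by positivity
    have h5 := Nat.ceil_lt_add_one h4
    rw [hm]
    have h6 : log (2 + M) / log (3 / 2) ≤ 3 * log (2 + M) := by
      rw [div_le_iff₀ (by linarith)]
      nlinarith
    linarith
  rw [QQ_cast]
  nlinarith

theorem exists_m0 {M : ℝ} (hM : 0 ≤ M) : M < (3 / 2 : ℝ) ^ ⌈log (2 + M) / log (3 / 2)⌉₊ := by
  set m0 := ⌈log (2 + M) / log (3 / 2)⌉₊ with hm0
  have h15 : (0 : ℝ) < log (3 / 2) := log_pos (by norm_num)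
  have h1 : log (2 + M) / log (3 / 2) ≤ m0 := Nat.le_ceil _
  rw [div_le_iff₀ h15] at h1
  have h2 : (3 / 2 : ℝ) ^ m0 = exp (m0 * log (3 / 2)) := by
    rw [exp_nat_mul, exp_log (by norm_num)]
  rw [h2]
  calc M < 2 + M := by linarith
    _ = exp (log (2 + M)) := (exp_log (by linarith)).symm
    _ ≤ exp (m0 * log (3 / 2)) := exp_le_exp.2 h1

theorem step_F {S : Set ℝ[X]} {N : ℕ} {t : ℕ → ℝ} {M g : ℝ} (hS : S.Finite)
    (hnt : S.Nontrivial) (hM : 0 ≤ M) (hg : 0 ≤ g) (ht : ∀ i, i < N → t i < t (i + 1))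
    (hr : ∀ i, i < N → t N - t 0 ≤ exp M * (t (i + 1) - t i))
    (hitem : ∀ L : List ℂ[X], Diffs S L → ∀ it : Item, it.Valid t N →
      LocalTest L it.supp (g / 2000)) :
    F S (g * gain (1 / 432000) 1 N M) (t 0) (t N) := by
  have hmono : ∀ j, j ≤ N → t 0 ≤ t j := by
    intro j
    induction j with
    | zero => intro _; exact le_rfl
    | succ j ih => intro hj; exact (ih (by omega)).trans (ht j (by omega)).le
  refine ⟨hS, hnt, hmono N le_rfl, ?_⟩
  intro L hL μ x φ htst hx κ hκ y₁ y₂ hY hφ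
  have h0 := val_sub_nonneg hL.ne_zero htst hx
  rcases Nat.eq_zero_or_pos N with hN | hN
  · have h1 : gain (1 / 432000) 1 N M ≤ 0 := by
      rw [gain, hN]
      simp
    have h2 : κ * (g * gain (1 / 432000) 1 N M) ≤ 0 := by
      have := mul_nonpos_of_nonneg_of_nonpos hg h1
      exact mul_nonpos_of_nonneg_of_nonpos hκ this
    linarith
  set a := Nat.clog 2 N with ha
  set m0 := ⌈log (2 + M) / log (3 / 2)⌉₊ with hm0
  have P : Pts t N a m0 M := by
    refine ⟨fun l hl => ?_, fun l hl => ?_, hN, Nat.le_pow_clog one_lt_two N, exists_m0 hM⟩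
    · unfold gap
      linarith [ht l hl]
    · exact hr l hl
  obtain ⟨c, r, hcr, hhole⟩ := choose_hole hY
  obtain ⟨Li, hlen, hpw, hval⟩ := selection P c r hcr
  have hdisj : ((Finset.univ : Finset (Fin Li.length)) : Set (Fin Li.length)).PairwiseDisjoint
      (fun i => (Li.get i).supp) := by
    intro i _ j _ hij
    rw [List.pairwise_iff_get] at hpw
    rcases lt_or_gt_of_ne hij with h | h
    · exact hpw i j h
    · exact (hpw j i h).symm
  have hc := combine (Finset.univ : Finset (Fin Li.length)) (fun i => (Li.get i).supp)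
    (fun _ => g / 2000) L hL.ne_zero hdisj
    (fun i _ => hitem L hL _ (hval _ (List.get_mem Li i)).1) htst hx hκ (by
      intro i _ y hy hyx
      obtain ⟨h1, h2, h3⟩ := hval _ (List.get_mem Li i)
      exact hφ y (D_sub_Nb _ _ (h2 hy)) (hhole _ h3 y hy) hyx)
  rw [Finset.sum_const, Finset.card_univ, Fintype.card_fin, nsmul_eq_mul] at hc
  refine le_trans (mul_le_mul_of_nonneg_left ?_ hκ) hc
  have hQ := QQ_le (K := N) (a := a) (m0 := m0) rfl hN hM hm0
  have hQp : (0 : ℝ) < QQ a m0 := by unfold QQ; positivity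
  have hQ204 : (204 : ℝ) ≤ QQ a m0 := by
    rw [QQ_cast]
    have h1 : (0 : ℝ) ≤ a := Nat.cast_nonneg a
    have h2 : (0 : ℝ) ≤ m0 := Nat.cast_nonneg m0
    linarith
  have hden : 0 < 1 + log N + log (2 + M) := by
    have h1 : 0 ≤ log (N : ℝ) := log_nonneg (by exact_mod_cast hN)
    have h2 : 0 ≤ log (2 + M) := log_nonneg (by linarith)
    linarith
  have h1 : gain (1 / 432000) 1 N M ≤ (Li.length : ℝ) / 2000 := by
    have h2 : (N : ℝ) / (216 * (1 + log N + log (2 + M))) ≤ N / QQ a m0 :=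
      div_le_div_of_nonneg_left (by positivity) hQp hQ
    have h3 : ((N : ℝ) - 8) / QQ a m0 = N / QQ a m0 - 8 / QQ a m0 := by ring
    have h4 : 8 / (QQ a m0 : ℝ) ≤ 1 := by
      rw [div_le_one hQp]; linarith
    have h5 : gain (1 / 432000) 1 N M =
        (N : ℝ) / (216 * (1 + log N + log (2 + M))) / 2000 - 1 := by
      rw [gain]
      field_simp
      ring
    rw [h5]
    rw [h3] at hlen
    linarith
  calc g * gain (1 / 432000) 1 N M ≤ g * ((Li.length : ℝ) / 2000) :=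
        mul_le_mul_of_nonneg_left h1 hg
    _ = (Li.length : ℝ) * (g / 2000) := by ring

end Pool.Agent.Be22.Ker
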